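import Pool.Agent.X140.AB.BaseC

/-!
# Abundance for fibrations whose fibres dominate the product of any constant variety and an abelian
cover of a product of projective spaces with arbitrary moduli, over bases with highly ramified linear
systems

Let `X` be a projective manifold (for instance with nef canonical bundle) and `|V|` a linear system on
`X` of dimension `N` whose rational map `X ⇢ ℙᴺ` has an image `Y` of dimension `d`, `1 ≤ d ≤ N`. Let
`D i` (`i < q`) be members of `|V|` which span `V`, in arbitrary position, which do not lie in two
complementary subsystems, and suppose that at every prime divisor `P` over `X` which is a component of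
some `D i` the multiplicities of `P` in two members differ by at least `s`, where
`2 s > R (N - d + 1) (N - d + 2)`, `R = N + 2`, or `R = N + 1` if there are at least `N + 3` different
`D i`.

Let `X → W` be the fibre space of `X ⇢ Y` and `F` its geometric generic fibre, a variety over the
algebraic closure `Λ` of the function field of `W`. Suppose that `F` has a generically finite rational
map, which may be ramified anywhere, to `F₀ × Z`, where `F₀` is any variety which is defined over `ℂ`
and `Z` is an abelian cover

  `w k ^ μ k = c k * ∏ j, ∏ i, ℓ j i (x j) ^ E k j i`, `k < p`,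

of a product of `r` projective spaces over `Λ` of dimensions `g j`, branched along `n j ≥ 2 g j + 2`
hyperplanes `ℓ j i` in general position in the `j`-th space, for every `j`. The exponents and the
degrees of the roots are arbitrary, but for each hyperplane there is a root which is ramified there.
This class contains

* the products of elliptic, hyperelliptic and superelliptic curves: all abelian covers of the line
  with at least four branch points (the ones with at most three are rational or are defined over `ℂ`),
* the K3 surfaces `w ^ 2 = ℓ 1 ⋯ ℓ 6`, double covers of the plane, in particular the Kummer surfaces of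
  the Jacobians of the curves of genus two, and the Calabi–Yau double covers of `ℙᵍ` branched along
  `2 g + 2` hyperplanes, and of products of projective spaces,
* the abelian covers of general type of the spaces branched along more hyperplanes, and quotients of
  products of all these, if they are branched along the same hyperplanes;

and since `F` has only to be generically finite over `F₀ × Z`, it may also be an abelian surface (it
has an isogeny to a product of elliptic curves or to the Jacobian of a curve of genus two, which
covers its Kummer surface), the Jacobian of a hyperelliptic curve, or any ramified cover of these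
varieties. The coefficients may vary with the point of `W`. Let `u` be the sum of the `g j` with
`n j ≥ 2 g j + 3`, or with `g j = 1` and a point of ramification index at least three. Then

  `κ(X) ≥ d + κ(F₀) + u` and `ν(X) ≤ d + ν(F)`.

So `κ(X) = ν(X)`, and `K_X` is semiample if it is nef, if `ν(F) ≤ κ(F₀) + u`.

Notation: `K` and `M` are the function fields of `X` and `F₀`, `L` that of `W`; prime divisors are
places (`Place`, `Divisorial`), `P.ord` is the order along `P`. `KodTr k K n h`: the Kodaira dimension
is at least `h`, that is, there are `h + 1` pluricanonical forms of which the `h` ratios are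
algebraically independent; `NumLe k K n (fun _ => False) h`: the numerical dimension is at most `h`,
that is `h⁰ (m K + A) ≤ C m ^ h` for each divisor `A` (`Pool/Agent/W619`). `LinearForm`,
`GeneralPosition`, `AbelianCover`, `Dominates`, `High` and `HighDimension` are defined in
`Pool.Agent.X140.AB.ADefs`.

Proof: for `g + 1` of the hyperplanes of a space of dimension `g` the form
`det (ℓ i₀, ..., ℓ i_g) d x₁ ∧ ... ∧ d x_g / (ℓ i₀ ⋯ ℓ i_g)` is the wedge product of the logarithmic
differentials of the quotients of the linear forms. The product `T` of all these forms has regular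
values on the regular vector fields along the fibres at the places which are not trivial on the
function field of `W`, in spite of the zeros and poles of the coefficients. At the others it has the
poles `T ~ ∏ ℓ i ^ (-(g + 1) / n)` per degree, with `(g + 1) / n ≤ 1 / 2`, the hyperplanes have normal
crossings, a wedge product of logarithmic forms has at most a simple pole, and by the equations of the
roots there is no place at which exactly one of the linear forms has a zero, of order one. If `n` is
larger then also the products of `T` and of the quotients of the linear forms are regular. The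
products of these forms and of pluricanonical forms of `F₀` are forms along the fibres of a base
change `X' → X`; the coefficients of their norms are forms along the fibres of `X`, which are
multiplied with generalised Wronskians of `V` (`Pool.Agent.TH585.SV.lin_fib`). The upper bound is the
numerical easy addition (`Pool.Agent.Y174.easy_add`).
-/

set_option autoImplicit false

open FF Pool.Agent.W619.TW Pool.Agent.W619.Y Pool.Agent.X140.AB
open Pool.Agent.W602.GT (Divisorial)

namespace Pool.Agent.Results.MP_97d78d_ag.AbelianCoverFibres

section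

variable {K : Type} [Field K] [Algebra ℂ K]

/-- The function field of the image of the rational map which is given by the linear system `V`: the
field generated by the quotients of the members. -/
noncomputable def ImageField (V : Submodule ℂ K) : IntermediateField ℂ K :=
  IntermediateField.adjoin ℂ {y : K | ∃ f ∈ V, ∃ g ∈ V, y = f / g}

/-- `V` is not the direct sum of two nonzero subspaces which together contain all the `φ i`. -/
def Indecomposable {q : ℕ} (V : Submodule ℂ K) (φ : Fin q → K) : Prop :=
  ∀ V₁ V₂ : Submodule ℂ K, V₁ ⊔ V₂ = V → V₁ ⊓ V₂ = ⊥ → (∀ i, φ i ∈ V₁ ∨ φ i ∈ V₂) →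
    V₁ = ⊥ ∨ V₂ = ⊥

/-- There are `r` members `φ i` of which no two are proportional. -/
def Different (r : ℕ) {q : ℕ} (φ : Fin q → K) : Prop :=
  ∃ τ : Fin r → Fin q, ∀ i j, i ≠ j → ∀ t : ℂ, φ (τ i) ≠ t • φ (τ j)

/-- The condition on the multiplicities, on a variety `X` of dimension `w`: if the prime divisor `P`
over `X` is a component of one of the divisors `D i` (the order of `φ i` at `P` is not the minimum `a`
of the orders of the members of `V`), then for some members `D i`, `D i'` the difference of the
multiplicities of `P` is at least `s`. -/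
def Multiplicities (w : ℕ) {q : ℕ} (V : Submodule ℂ K) (φ : Fin q → K) (s : ℝ) : Prop :=
  ∀ P : Place ℂ K, Divisorial w P → ∀ a : ℤ, (∀ f ∈ V, f = 0 ∨ a ≤ P.ord f) →
    (∃ f ∈ V, f ≠ 0 ∧ P.ord f = a) → (∃ i, P.ord (φ i) ≠ a) →
    ∃ i i', s ≤ ((P.ord (φ i) - P.ord (φ i') : ℤ) : ℝ)

end

/-- the Kodaira dimension of a point -/
theorem kodTr_zero {M : Type} [Field M] [Algebra ℂ M] : KodTr ℂ M 0 0 := by
  refine ⟨1, le_rfl, fun _ _ => 1, fun l => ⟨fun A D => ?_, fun v _ _ D _ => ?_,
    fun v _ h => absurd h id⟩, fun i => i.elim0, fun _ => one_ne_zero, ?_⟩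
  · rw [Matrix.det_isEmpty, one_pow, one_mul]
  · exact Or.inr ⟨1, Finset.mem_singleton_self _, one_ne_zero, by simp [v.ord_one]⟩
  · rw [algebraicIndependent_empty_type_iff]
    exact (algebraMap ℂ M).injective

/-- Let `K` be the function field of a projective variety `X` of dimension `d + e + t`, where `e` is
the sum of the `g j` and `e + t ≥ 1`, `V` a linear system of dimension `N` on `X` whose rational map
has an image `Y` of dimension `d`, `1 ≤ d ≤ N`; `φ i` nonzero members which span `V` and do not lie in
two complementary subspaces, `R = N + 2`, or `R = N + 1` if there are `N + 3` different members, and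
`s` a number with `2 s ≥ R (N - d + 1) (N - d + 2)` for which the condition on the multiplicities
holds. Let `L` be the algebraic closure of the function field of `Y` in `K` (the function field of
`W`), `Λ` an algebraic closure of `L`, and `F` the function field of the geometric generic fibre of
`X → W`, which is generated by `K` and `Λ`. Let `M` be the function field of a variety `F₀` over `ℂ`
of dimension `t`, and let the geometric generic fibre have a generically finite rational map to
`F₀ × Z`, where `Z` is an abelian cover of the product of projective spaces of the dimensions `g j`.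

Then `κ(X) ≥ h + u` if `κ(F₀) ≥ h`, `u = HighDimension μ E`. If `2 s > R (N - d + 1) (N - d + 2)` then
`κ(X) ≥ d + h + u` if `κ(F₀) ≥ h`; if `t = 0` then `κ(X) ≥ d + u`. If `ν(F) ≤ h` then
`ν(X) ≤ d + h`. -/
theorem result (d r t N q : ℕ) (hd : 1 ≤ d) (hdN : d ≤ N) {g n : Fin r → ℕ}
    (he : 1 ≤ (∑ j, g j) + t) {K : Type} [Field K]
    [Algebra ℂ K] [Algebra.EssFiniteType ℂ K]
    (hK : Algebra.trdeg ℂ K = (d + ((∑ j, g j) + t) : ℕ))
    -- the linear system
    (V : Submodule ℂ K) (hN : Module.finrank ℂ V = N + 1)
    (hV : Algebra.trdeg ℂ (ImageField V) = d) (φ : Fin q → K) (hφ0 : ∀ i, φ i ≠ 0)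
    (hφ : Submodule.span ℂ (Set.range φ) = V) (hind : Indecomposable V φ)
    (R : ℕ) (hR : R = N + 2 ∨ (Different (N + 3) φ ∧ R = N + 1)) (s : ℝ)
    (hs : (R : ℝ) * (((N : ℝ) - d + 1) * ((N : ℝ) - d + 2)) ≤ 2 * s)
    (hm : Multiplicities (d + ((∑ j, g j) + t)) V φ s)
    -- the fibre space
    (L : IntermediateField ℂ K) [Algebra.EssFiniteType ℂ L]
    (hL : ∀ x : K, x ∈ L ↔ IsAlgebraic (ImageField V) x)
    -- the geometric generic fibre
    {Λ F : Type} [Field Λ] [Field F] [Algebra L Λ] [IsAlgClosure L Λ] [Algebra Λ F] [Algebra K F]
    [IsScalarTower L Λ F] [Algebra ℂ Λ] [Algebra ℂ F] [IsScalarTower ℂ L Λ] [IsScalarTower ℂ Λ F]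
    [IsScalarTower ℂ K F] (hF : IntermediateField.adjoin Λ (Set.range (algebraMap K F)) = ⊤)
    -- the constant variety and the abelian cover
    (M : IntermediateField ℂ F) [Algebra.EssFiniteType ℂ M] (hM : Algebra.trdeg ℂ M = t) {p : ℕ}
    (a : ∀ j, Fin (n j) → Fin (g j + 1) → Λ) (μ : Fin p → ℕ) (E : Fin p → ∀ j, Fin (n j) → ℕ)
    (c : Fin p → Λ) (x : ∀ j, Fin (g j) → F) (w : Fin p → F) (hdom : Dominates M a μ E c x w)
    (h : ℕ) :
    (KodTr ℂ M t h →
      KodTr ℂ K (d + ((∑ j, g j) + t)) (h + HighDimension (g := g) μ E)) ∧
    ((R : ℝ) * (((N : ℝ) - d + 1) * ((N : ℝ) - d + 2)) < 2 * s →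
      (KodTr ℂ M t h →
        KodTr ℂ K (d + ((∑ j, g j) + t)) (d + (h + HighDimension (g := g) μ E))) ∧
      (t = 0 → KodTr ℂ K (d + ((∑ j, g j) + t)) (d + HighDimension (g := g) μ E))) ∧
    (NumLe Λ F ((∑ j, g j) + t) (fun _ => False) h →
      NumLe ℂ K (d + ((∑ j, g j) + t)) (fun _ => False) (d + h)) := by
  have hVL : ImageField V ≤ L := fun x hx => (hL x).2 (isAlgebraic_algebraMap (⟨x, hx⟩ :
    ImageField V))
  have hLalg : ∀ x ∈ L, IsAlgebraic (ImageField V) x := fun x hx => (hL x).1 hx
  have hLA : L = Pool.Agent.X180.Iso.Acl (ImageField V) := by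
    ext x
    rw [hL, Pool.Agent.X180.Iso.mem_acl]
  have hΛalg : Algebra.IsAlgebraic L Λ := IsAlgClosure.isAlgebraic
  have hLK : ∀ x : K, IsIntegral L x → ∃ y : L, algebraMap L K y = x := by
    intro x hx
    have h1 : IsAlgebraic (Pool.Agent.X180.Iso.Acl (ImageField V)) x := by
      rw [← hLA]
      exact hx.isAlgebraic
    have h2 : x ∈ L := by
      rw [hLA]
      exact Pool.Agent.X180.Iso.acl_acl h1
    exact ⟨⟨x, h2⟩, rfl⟩
  have htrL : Algebra.trdeg ℂ L = d := by
    rw [← hV]
    exact Pool.Agent.X180.Abn.trdeg_of_alg hVL hLalg
  have hRc : (R + 1 = N + 3 ∨ (1 = 1 ∧ (∃ τ : Fin (N + 3) → Fin q, ∀ i j, i ≠ j → ∀ t : ℂ,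
      φ (τ i) ≠ t • φ (τ j)) ∧ R = N + 1)) := by
    rcases hR with h1 | ⟨h1, h2⟩
    · left
      omega
    · exact Or.inr ⟨rfl, h1, h2⟩
  have key := fun (l : ℕ) (hk : KodTr ℂ M t l) => Pool.Agent.X180.Iso.iso_kod (c := 1) hd hdN hK hV
      hφ0 hφ (Pool.Agent.X180.Abn.dcp_one hφ hN) (Pool.Agent.X180.Abn.not_dcp hind) hRc hs
      (fun P hP a h1 h2 h3 => by
        obtain ⟨i, i', h4⟩ := hm P hP a h1 h2 h3
        exact ⟨i, i', rfl, h4⟩)
      (geo_ab (v := 0) (z := fun i => i.elim0) hK (Pool.Agent.X180.Iso.trdeg_rel hK hV) hLalg hF
        (fun z => ((hΛalg.isAlgebraic z).algHom (IsScalarTower.toAlgHom L Λ F))) M hM hdom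
        (Pool.Agent.X180.Abn.kodGe_of_kodTr hk) (fun i => i.elim0) (by
          rw [algebraicIndependent_empty_type_iff]
          exact (algebraMap ℂ F).injective) _).1
  refine ⟨fun hk => Pool.Agent.X180.Abn.kodTr_of_kodGe (key h hk).1, fun hlt => ⟨fun hk =>
    Pool.Agent.X180.Abn.kodTr_of_kodGe ((key h hk).2 hlt d rfl), fun ht => ?_⟩, fun hnum => ?_⟩
  · have hk : KodTr ℂ M t 0 := by
      rw [ht]
      exact kodTr_zero
    have h1 := Pool.Agent.X180.Abn.kodTr_of_kodGe ((key 0 hk).2 hlt d rfl)
    rwa [zero_add] at h1
  · obtain ⟨e, he⟩ : ∃ e, (∑ j, g j) + t = e + 1 := ⟨(∑ j, g j) + t - 1, by omega⟩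
    rw [he] at hnum hK ⊢
    exact Pool.Agent.Y174.easy_add ‹Algebra.EssFiniteType ℂ L› ‹Algebra.EssFiniteType ℂ K› hF hLK
      htrL hK hnum

end Pool.Agent.Results.MP_97d78d_ag.AbelianCoverFibres
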