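import Pool.Agent.X180.TV.Main

/-!
# Abundance for fibre spaces over towers of fibrations whose fibres dominate a constant variety

Let `X` be a smooth projective variety and

  `X ⇢ W_l ⇢ ... ⇢ W_1 ⇢ W_0 ⊂ P^v`, `l ≥ 0`,

dominant rational maps, where `W_0`, of dimension `≥ 1`, is any subvariety of `P^v`. Suppose:

* (the base) there are `q > (v + Q).choose v` general hyperplanes in `P^v`, and `m ≥ 2` such that
  `2 v m ≤ Q (m - 1)` (for instance `Q = 4 v` and `m = 2`), and for each prime divisor `P` of a model
  of `X` the multiplicity of each of the hyperplanes at `P` (for the divisors without fixed component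
  which the map `X ⇢ P^v` defines) is `0` or at least `m`: the fibres over the hyperplane sections of
  `W_0` have no components of multiplicity less than `m`;
* (the steps of the tower) for each `i < l` the fibres of `W_{i+1}` over `W_i` are of one of the
  following three kinds.

  (a) There is a correspondence between `W_{i+1}` and a relative product of projective spaces over
  `W_i`: a variety `W'` with a generically finite map `W' ⇢ W_{i+1}` (ramified anywhere) and a
  generically finite map over `W_i` to `W'' × P^{r_1} × ... × P^{r_c}`, `r_j ≥ 1`, `W''` finite over
  `W_i`, and in each `P^{r_j}` there are any hyperplanes `A j k = 0`, in any position, which move with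
  the point of `W''`, with weights `w j k ≥ 0` such that the arrangement is log canonical (the sum of
  the weights of hyperplanes with a common point is at most the codimension of their intersection)
  and of log general type (`∑ k, w j k > r_j + 1`). If `q` is a place of the function field of `W'`
  over a prime divisor `p` of a model of `W_{i+1}` which dominates `W_i`, with ramification index `ε`,
  and `e j k` are the multiplicities of the hyperplanes at `q`, not all zero, then
  `ε ≤ ∑ (mx_j - ∑ w j k e j k)`, where `mx_j` is the greatest sum of `r_j + 1` of the `e j k` whose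
  hyperplanes have no common point (`ε = 1`, if all `e j k` are zero).

  (b) After a generically finite base change `W_i' → W_i` the variety `W_{i+1} ×_{W_i} W_i'` has a
  generically finite rational map to `W_i' × V`, where `V` is a smooth projective variety of general
  type.

  (c) After a generically finite base change the fibres have a rational map to a constant variety `V`,
  of any dimension, such that the ratios of the exterior products of regular 1-forms of `V`, pulled
  back to the fibres, generate a field of transcendence degree equal to the dimension of the fibres;
  for instance the fibres are generically finite covers of subvarieties of general type, which move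
  arbitrarily, of an abelian variety.

Let `X → W` be the fibre space of `X ⇢ W_l` (`W` is the normalization of `W_l` in the function field of
`X`) and `F` its geometric generic fibre, a variety of dimension `f + 1 ≥ 1` over the algebraic closure
`Λ` of the function field of `W`. Suppose that `F` has a generically finite rational map to a variety
`F₀` of dimension `f + 1` which is defined over `ℂ` (for instance, the fibres of `X → W` are all
birational to `F₀`, or are covers of `F₀` with a branch divisor which moves). Then

  `κ(X) ≥ dim W + κ(F₀)`, and `ν(X) ≤ dim W + ν(F)`.

So if `κ(F₀) = ν(F)` then `κ(X) = ν(X) = dim W + κ(F₀)`: abundance for the fibres implies abundance for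
`X`; if `K_X` is nef then it is semiample (Kawamata). This is new also if `F₀` is an abelian variety or
a Calabi-Yau manifold. Nothing is supposed about the singular fibres of any of the maps, and the
variations of the steps of the tower are arbitrary.

Notation: `K` and `M` are the function fields of `X` and `F₀`, `E i` that of `W_i`, `L` that of `W`;
prime divisors are places (`Place`, `Divisorial`), `P.ord` is the order along `P`; the multiplicities
`μ i` of the hyperplanes `ℓ i` at `P` are given by `OrdData P ℓ b a μ`: the order of `ℓ i (b)` is
`a + μ i`, where `a` is the minimum of the orders of the `b j`. `KodTr k K n h`: the Kodaira dimension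
is at least `h`, that is, there are `h + 1` pluricanonical forms of which the `h` ratios are
algebraically independent; `NumLe k K n (fun _ => False) h`: the numerical dimension is at most `h`,
that is `h⁰ (m K + A) ≤ C m ^ h` for each divisor `A` (`Pool/Agent/W619`). `GeneralTypeFibres`,
`DominatesConstant`: `Pool/Agent/X180/TW/Defs`; `ManyDifferentials`, `IsTower`:
`Pool/Agent/X180/TV/Defs`.

Proof: the rational map from `F` to `F₀` is defined over a finite extension of `K` which is generated by
an element which is algebraic over `L`. The norms of the forms which are defined by the pluricanonical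
forms of `F₀` are forms along the fibres of `X` which take regular values on regular vector fields
tangent to the fibres. They are multiplied by the pull backs of the forms of the steps of the tower:
norms of products of determinants of logarithmic derivatives (a), of pull backs of pluricanonical forms
(b) or of exterior products of 1-forms (c). The products are estimated inductively with adapted regular
vector fields (`Pool.Agent.X180.Tow`), and are multiplied by Wronskians of hyperplane sections of `W_0`
(`Pool.Agent.Y191.general_fib`). The upper bound is the numerical easy addition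
(`Pool.Agent.Y174.easy_add`).
-/

set_option autoImplicit false

open FF Pool.Agent.W619.TW Pool.Agent.W619.Y Pool.Agent.Y191
open Pool.Agent.W602.GT (Divisorial)
open Pool.Agent.X180.TV (IsTower)

namespace Pool.Agent.Results.MP_97d78d_ag.FibresOverTowers

/-- Let `K` and `U` be the function fields of `X` and of a variety `Z` of dimension `d` with a dominant
rational map `X ⇢ Z` of relative dimension `f + 1`. Abundance for the fibres implies abundance for `X`:
let `L` be the algebraic closure of `U` in `K` (the function field of the variety `W` of the fibre
space `X → W` of `X ⇢ Z`), `Λ` an algebraic closure of `L`, and `F` the function field of the geometric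
generic fibre of `X → W`, which is generated by `K` and `Λ`. Let `M` be the function field of a variety
`F₀` over `ℂ` of dimension `f + 1` and let the geometric generic fibre have a generically finite
dominant rational map to `F₀`: `F` is algebraic over the field which is generated by `Λ` and `M`. Then
`κ(X) ≥ d + h` if `κ(F₀) ≥ h`, and `ν(X) ≤ d + h` if the numerical dimension of the geometric generic
fibre is at most `h`. -/
def AbundanceOver {K : Type} [Field K] [Algebra ℂ K] (U : IntermediateField ℂ K) (d f : ℕ) : Prop :=
  ∀ (L : IntermediateField ℂ K) [Algebra.EssFiniteType ℂ L], (∀ x : K, x ∈ L ↔ IsAlgebraic U x) →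
  -- the geometric generic fibre
  ∀ {Λ F : Type} [Field Λ] [Field F] [Algebra L Λ] [IsAlgClosure L Λ] [Algebra Λ F]
    [Algebra K F] [IsScalarTower L Λ F] [Algebra ℂ Λ] [Algebra ℂ F] [IsScalarTower ℂ L Λ]
    [IsScalarTower ℂ Λ F] [IsScalarTower ℂ K F],
  IntermediateField.adjoin Λ (Set.range (algebraMap K F)) = ⊤ →
  -- the constant variety
  ∀ (M : IntermediateField ℂ F) [Algebra.EssFiniteType ℂ M], Algebra.trdeg ℂ M = (f + 1 : ℕ) →
  (∀ z : F, IsAlgebraic (IntermediateField.adjoin Λ (M : Set F)) z) → ∀ h : ℕ,
  (KodTr ℂ M (f + 1) h → KodTr ℂ K (d + (f + 1)) (d + h)) ∧
  (NumLe Λ F (f + 1) (fun _ => False) h → NumLe ℂ K (d + (f + 1)) (fun _ => False) (d + h))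

/-- **Abundance for fibre spaces over towers.** Let `m ≥ 2`, `2 * v * m ≤ Q * (m - 1)` and
`(v + Q).choose v < q`. For `q` general hyperplanes in `P^v` (some polynomial `Ψ` does not vanish at
the coefficients) the following holds. Let `K` be the function field of a smooth projective variety
`X`, `b` the coordinates of a rational map `X ⇢ P^v` whose image is the bottom `W_0`, of dimension
`≥ 1`, of a tower `W_l ⇢ ... ⇢ W_0` whose steps are as in `IsTower`, with a dominant rational map
`X ⇢ W_l` of relative dimension `f + 1`, and let the multiplicities `μ i` of the hyperplanes at the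
prime divisors over `X` be `0` or at least `m`. Let the geometric generic fibre `F` of the fibre space
`X → W` of `X ⇢ W_l` have a generically finite dominant rational map to a variety `F₀` over `ℂ` of
dimension `f + 1`. Then `κ(X) ≥ dim W + h` if `κ(F₀) ≥ h`, and `ν(X) ≤ dim W + h` if `ν(F) ≤ h`
(`AbundanceOver`). If both hold then `κ(X) = ν(X) = dim W + h`. -/
theorem result {v q m Q : ℕ} (hv : 1 ≤ v) (hm : 2 ≤ m) (hQ : 2 * v * m ≤ Q * (m - 1))
    (hq : (v + Q).choose v < q) :
    ∃ Ψ : MvPolynomial (Fin q × Fin (v + 1)) ℂ, Ψ ≠ 0 ∧
      ∀ ℓ : Fin q → Fin (v + 1) → ℂ, MvPolynomial.eval (fun x => ℓ x.1 x.2) Ψ ≠ 0 →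
      ∀ (K : Type) [Field K] [Algebra ℂ K] [Algebra.EssFiniteType ℂ K] (l f : ℕ)
        (E : Fin (l + 1) → IntermediateField ℂ K) (D : Fin (l + 1) → ℕ) (e : Fin l → ℕ),
      Algebra.trdeg ℂ K = (D (Fin.last l) + (f + 1) : ℕ) →
      ∀ b : Fin (v + 1) → K, (∀ i, lf (ℓ i) b ≠ 0) → (∃ j, b j ≠ 0) → E 0 = RF ℂ b → 1 ≤ D 0 →
      IsTower E D e →
      (∀ P : Place ℂ K, Divisorial (D (Fin.last l) + (f + 1)) P → ∀ (a : ℤ) (μ : Fin q → ℕ),
        OrdData P ℓ b a μ → ∀ i, μ i = 0 ∨ m ≤ μ i) →
      AbundanceOver (E (Fin.last l)) (D (Fin.last l)) f := by
  obtain ⟨Ψ, hΨ, h⟩ := Pool.Agent.X180.TV.main hv hm hQ hq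
  refine ⟨Ψ, hΨ, fun ℓ hℓ K _ _ _ l f E D e hK b hb hb0 hE0 hD0 hT hmult => ?_⟩
  intro L _ hL Λ F _ _ _ _ _ _ _ _ _ _ _ _ hF M _ hM hdom h0
  exact h ℓ hℓ K l f E D e hK b hb hb0 hE0 hD0 hT hmult L hL hF M hM hdom h0

end Pool.Agent.Results.MP_97d78d_ag.FibresOverTowers
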