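import Pool.Agent.X180.Tow.Chain
import Pool.Agent.Y191.LcRam
import Pool.Agent.Y191.GenFib

/-!
# Abundance for towers of fibrations with small multiplicities over general hyperplanes

Let `X` be a projective manifold (or a projective variety with canonical singularities) and

  `X ⇢ W_l ⇢ ... ⇢ W_1 ⇢ W_0 ⊂ P^v`

dominant rational maps, `l ≥ 0`, where `W_0`, of dimension `≥ 1`, is any subvariety of `P^v`. Suppose:

* (the base) there are `q > (v + Q).choose v` general hyperplanes in `P^v`, and `m ≥ 2` such that
  `2 v m ≤ Q (m - 1)` (for instance `Q = 4 v` and `m = 2`), and for each prime divisor `P` of `X` the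
  multiplicity of each of the hyperplanes at `P` (for the divisors without fixed component which the
  map `X ⇢ P^v` defines) is `0` or at least `m`: the fibres over the hyperplane sections of `W_0` have
  no components of multiplicity less than `m`, in the orbifold sense;
* (the steps of the tower, fibres of log general type) for each `i < l` there is a correspondence
  between `W_{i+1}` and a relative product of projective spaces over `W_i`: a variety `W'` with a
  generically finite map `W' ⇢ W_{i+1}` (ramified anywhere) and a generically finite map over `W_i` to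
  `W'' × P^{r_1} × ... × P^{r_c}`, `r_j ≥ 1`, `W''` finite over `W_i`, and in each `P^{r_j}` there are
  any hyperplanes `A j k = 0`, in any position, which move with the point of `W''`, with weights
  `w j k ≥ 0` such that the arrangement is log canonical (the sum of the weights of hyperplanes with a
  common point is at most the codimension of their intersection) and of log general type
  (`∑ k, w j k > r_j + 1`). If `q` is a place of the function field of `W'` over a prime divisor `p` of
  a model of `W_{i+1}` which dominates `W_i`, with ramification index `ε`, and `e j k` are the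
  multiplicities of the hyperplanes at `q`, not all zero, then `ε ≤ ∑ (mx_j - ∑ w j k e j k)`, where
  `mx_j` is the greatest sum of `r_j + 1` of the `e j k` whose hyperplanes have no common point
  (`ε = 1`, if all `e j k` are zero);
* (the fibres of `X` over `W_l`, of any log Kodaira dimension) there is such a correspondence `X'`
  between `X` and a relative product `P^{r_1} × ... × P^{r_c}` over `W_l`, with log canonical moving
  hyperplane arrangements with weights in `[0, 1]` and the same condition at the prime divisors of `X`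
  which dominate `W_l`; and if `Q` is a place of the function field of `X'` over a prime divisor of
  `P^{r_1} × ... × P^{r_c}` over `W_l`, with ramification index `ρ`, and with ramification index `ε`
  over `X`, then `ρ - ε ≤ ∑ w j k e j k`.

Then `κ(X) = ν(X)`: `K_X` is pseudo-effective if and only if `∑ k, w j k ≥ r_j + 1` for all `j` (for the
fibres over `W_l`); then `κ(X) = ν(X) = dim W_l + λ`, where `λ` is the sum of the `r_j` with
`∑ k, w j k > r_j + 1`; otherwise `κ(X) = ν(X) = -∞`. So if `K_X` is nef then it is semiample
(Kawamata).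

For instance, the fibres of `W_{i+1}` over `W_i` may be any hyperelliptic curves of genus `≥ 2`
(iterated families of hyperelliptic curves), covers of projective spaces which are highly ramified
along arbitrary hyperplanes, étale covers or quotients by free group actions of products of such
varieties, and the fibres of `X` over `W_l` may be elliptic curves, products of elliptic curves and
their étale quotients, or K3 surfaces which are double planes over six lines, with any variation.

The language and the definitions of `Pool.Agent.Y172` are used: `X` is given by the homogeneous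
coordinates `y` of its generic point, with values in the function field `K` of `X`; the prime divisors
of `X` are places `P` of `K`, `P.ord` is the order along `P`; `kodairaDim` and `numericalDim` are the
literal definitions of the Kodaira and of the numerical dimension by means of the dimensions of the
spaces of sections of `m K_X` and of `m K_X + A`. The varieties `W_i` are given by their function
fields `E i`, subfields of `K`.

Proof: the forms of `W_{i+1}` along the fibres over `W_i` are the norms of products of determinants of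
logarithmic derivatives of the linear forms (`Pool.Agent.Y191.lc_low`). Their pull backs to `X` are
multiplied; the products are estimated inductively, with adapted regular vector fields: vector fields
on `X` which are regular at a prime divisor and tangent to the fibres over `W_i` are transformed such
that some of them are tangent to the fibres over `W_{i+1}`, without enlarging the determinants
(`Pool.Agent.X180.Tow`). They are multiplied by Wronskians of hyperplane sections
(`Pool.Agent.Y191.general_fib`). For the upper bound, the sections of `m K_X + A` are pulled back to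
`X'`; their traces are polynomials of bounded degree in the coordinates of the factors with
`∑ k, w j k = r_j + 1` (`Pool.Agent.Y191.lc_ab`).
-/

set_option autoImplicit false

open FF Pool.Agent.W602.GT Pool.Agent.Y172 Pool.Agent.Y191

namespace Pool.Agent.Results.MP_97d78d_ag.IteratedArrangementFibrations

section

variable {K : Type} [Field K] [Algebra ℂ K] {N : ℕ}

/-- `X` is a projective variety of dimension `n` with canonical singularities. -/
def IsCanonicalVariety (y : Fin (N + 1) → K) (n : ℕ) : Prop :=
  NormalModel y ∧ Algebra.trdeg ℂ K = n ∧ Canonical y n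

/-- The `b j` are the coordinates of a rational map whose image is not contained in one of the
hyperplanes `ℓ i = 0`. -/
def IsMap {v q : ℕ} (ℓ : Fin q → Fin (v + 1) → ℂ) (b : Fin (v + 1) → K) : Prop :=
  (∀ i, lf (ℓ i) b ≠ 0) ∧ ∃ j, b j ≠ 0

/-- The subfield `L` of `K` as a subfield of `E`, if `L` is contained in `E`. -/
noncomputable def below (E L : IntermediateField ℂ K) : IntermediateField ℂ E := L.comap E.val

/-- Let `E` and `L` be the function fields of varieties `W`, of dimension `D`, and `Z`, with a dominant
rational map from `W` to `Z`. The fibres, of dimension `e`, correspond to moving log canonical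
arrangements of log general type: there is a finite extension `K'` of `E`, and the `u ⟨j, k⟩` are the
affine coordinates of a generically finite map, over `Z`, of a variety with the function field `K'` to a
product of projective spaces of dimensions `r j ≥ 1`; `A j i` are the coefficients of hyperplanes,
algebraic over `L`, with weights `w j i` such that the arrangement is log canonical (`LcArr`), and the
sums of the weights are greater than `r j + 1`. The multiplicities are bounded at the places over the
prime divisors of the models of `W` which dominate `Z` (`LcHor`). -/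
def GeneralTypeFibres (E L : IntermediateField ℂ K) (D e : ℕ) : Prop :=
  ∃ (c : ℕ) (r s : Fin c → ℕ) (w : ∀ j, Fin (s j) → ℚ), e = ∑ j, r j ∧
  (∀ j, 1 ≤ r j ∧ (∀ i, 0 ≤ w j i) ∧ (r j + 1 : ℚ) < ∑ i, w j i) ∧
  ∃ (K' : Type) (_ : Field K') (_ : Algebra ℂ K') (_ : Algebra E K') (_ : IsScalarTower ℂ E K')
    (_ : FiniteDimensional E K') (A : ∀ j, Fin (s j) → Fin (r j + 1) → K')
    (u : (Σ j, Fin (r j)) → K'),
    LcArr (upF K' (below E L)) A w ∧ IsTranscendenceBasis (upF K' (below E L)) u ∧
    LcHor (below E L) A u w {p | Divisorial D p} (fun _ => 0)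

/-- The tower `W_l ⇢ ... ⇢ W_1 ⇢ W_0`: the `E i` are the function fields of varieties of dimensions
`D i`, each contained in the next one, and the fibres of `W_{i+1}` over `W_i`, of dimension `e i`, are
as in `GeneralTypeFibres`. -/
def IsTower {l : ℕ} (E : Fin (l + 1) → IntermediateField ℂ K) (D : Fin (l + 1) → ℕ)
    (e : Fin l → ℕ) : Prop :=
  (∀ i, Algebra.EssFiniteType ℂ (E i) ∧ Algebra.trdeg ℂ (E i) = D i) ∧
  ∀ i : Fin l, E i.castSucc ≤ E i.succ ∧ D i.succ = D i.castSucc + e i ∧
    GeneralTypeFibres (E i.succ) (E i.castSucc) (D i.succ) (e i)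

/-- There is a finite extension `K'` of `K`, and the `u ⟨j, k⟩` are the affine coordinates of a
generically finite map, over the variety with the function field `E`, of a variety with the function
field `K'` to a product of projective spaces of dimensions `r j ≥ 1`; `A j i` are the coefficients of
hyperplanes, algebraic over `E`, with weights `w j i` in `[0, 1]` such that the arrangement is log
canonical (`LcArr`). The multiplicities are bounded at the places over the prime divisors of `X`
which are trivial on `E` (`LcHor`) and at the places over the prime divisors of the product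
(`RamK`). -/
def Fibres (y : Fin (N + 1) → K) (E : IntermediateField ℂ K) {c : ℕ}
    (r s : Fin c → ℕ) (w : ∀ j, Fin (s j) → ℚ) : Prop :=
  (∀ j, 1 ≤ r j ∧ ∀ i, 0 ≤ w j i ∧ w j i ≤ 1) ∧
  ∃ (K' : Type) (_ : Field K') (_ : Algebra ℂ K') (_ : Algebra K K') (_ : IsScalarTower ℂ K K')
    (_ : FiniteDimensional K K') (A : ∀ j, Fin (s j) → Fin (r j + 1) → K')
    (u : (Σ j, Fin (r j)) → K'),
    LcArr (upF K' E) A w ∧ IsTranscendenceBasis (upF K' E) u ∧
    LcHor E A u w {P | IsPrimeDivisor y P} (fun _ => 0) ∧ RamK K (upF K' E) A u w

/-- the sum of the dimensions `r j` for which the sum of the weights is greater than `r j + 1` -/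
def big {c : ℕ} (r s : Fin c → ℕ) (w : ∀ j, Fin (s j) → ℚ) : ℕ :=
  ∑ j, if (r j + 1 : ℚ) < ∑ i, w j i then r j else 0

/-- If the sums of the weights are at least `r j + 1` then the Kodaira dimension and the numerical
dimension (with respect to any effective integral divisor `A`) of `K_X` are `p + big`; otherwise both
are `-∞`. -/
def Abundance (y : Fin (N + 1) → K) (n p : ℕ) {c : ℕ} (r s : Fin c → ℕ)
    (w : ∀ j, Fin (s j) → ℚ) : Prop :=
  ((∀ j, (r j + 1 : ℚ) ≤ ∑ i, w j i) → kodairaDim y n 0 = ((p + big r s w : ℕ) : WithBot ℕ) ∧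
    ∀ A, Effective y A → Integral y A → numericalDim y n 0 A = ((p + big r s w : ℕ) : EReal)) ∧
  ((∃ j, ∑ i, w j i < (r j + 1 : ℚ)) → kodairaDim y n 0 = ⊥ ∧
    ∀ A, Effective y A → numericalDim y n 0 A = ⊥)

end

theorem exists_idx {c : ℕ} (r q : Fin c → ℕ) (w : ∀ j, Fin (q j) → ℚ) :
    ∃ κ : Fin (big r q w) → Σ j, Fin (r j), Function.Injective κ ∧
      ∀ i, (r (κ i).1 + 1 : ℚ) < ∑ i', w (κ i).1 i' := by
  classical
  have h1 : Fintype.card {x : Σ j, Fin (r j) // (r x.1 + 1 : ℚ) < ∑ i, w x.1 i} = big r q w := by
    rw [Fintype.card_subtype, Finset.card_filter, Fintype.sum_sigma]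
    refine Finset.sum_congr rfl fun j _ => ?_
    change ∑ _k : Fin (r j), (if (r j + 1 : ℚ) < ∑ i, w j i then 1 else 0) = _
    rw [Finset.sum_const, Finset.card_univ, Fintype.card_fin, smul_eq_mul, mul_ite, mul_one,
      mul_zero]
  let φ := Fintype.equivFinOfCardEq h1
  exact ⟨fun i => (φ.symm i : Σ j, Fin (r j)), fun a b hab => φ.symm.injective (Subtype.ext hab),
    fun i => (φ.symm i).2⟩

theorem abundance_of {K : Type} [Field K] [Algebra ℂ K] {N p c : ℕ} {y : Fin (N + 1) → K}
    {r s : Fin c → ℕ} {w : ∀ j, Fin (s j) → ℚ} {L : IntermediateField ℂ K}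
    (hy : IsCanonicalVariety y (p + ∑ j, r j)) {K' : Type} [Field K'] [Algebra ℂ K']
    [Algebra K K'] [IsScalarTower ℂ K K'] [FiniteDimensional K K']
    {A : ∀ j, Fin (s j) → Fin (r j + 1) → K'}
    {u : (Σ j, Fin (r j)) → K'} (hw : ∀ j, 1 ≤ r j ∧ ∀ i, 0 ≤ w j i ∧ w j i ≤ 1)
    (hA : LcArr (upF K' L) A w) (hu : IsTranscendenceBasis (upF K' L) u)
    (hC : RamK K (upF K' L) A u w)
    (hK : (∀ j, (r j + 1 : ℚ) ≤ ∑ i, w j i) → KodairaGe (p + ∑ j, r j) {P | IsPrimeDivisor y P}
      (fun _ => 0) (p + big r s w)) : Abundance y (p + ∑ j, r j) p r s w := by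
  have h00 : Effective y (0 : Place ℂ K → ℚ) := ⟨fun _ _ => le_rfl, by simp⟩
  obtain ⟨h1, h2⟩ := lc_ab hy.1 hy.2.1 h00 hA.1 hu (fun j => (hw j).1)
    (fun j i => ((hw j).2 i).1) (fun j i => ((hw j).2 i).2) (hC.cor hy.2.1 hy.2.2 hu)
  refine ⟨fun h => h2 (p + big r s w) h ?_ ?_, h1⟩
  · rw [add_assoc, big, ← Finset.sum_add_distrib]
    congr 1
    refine Finset.sum_congr rfl fun j _ => ?_
    rcases lt_or_eq_of_le (h j) with h3 | h3
    · rw [if_pos h3, if_neg h3.ne', add_zero]
    · rw [if_neg (not_lt.2 h3.symm.le), if_pos h3.symm, zero_add]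
  · have h3 := hK h
    have h4 : (fun P => (((0 : Place ℂ K → ℚ) P : ℚ) : ℝ)) = fun _ : Place ℂ K => (0 : ℝ) :=
      funext fun P => Rat.cast_zero
    rw [h4]
    exact h3

/-- the forms along the fibres of log general type -/
theorem forms_of {K : Type} [Field K] [Algebra ℂ K] {D d e : ℕ}
    {E L : IntermediateField ℂ K} (hLE : L ≤ E)
    (hL : Algebra.trdeg ℂ L = d) (hE : Algebra.trdeg ℂ E = D) (hD : D = d + e)
    (h : GeneralTypeFibres E L D e) : Pool.Agent.X180.Tow.HasForms (d + e)
      {p : Place ℂ E | Divisorial (d + e) p} (fun _ => 0) (Pool.Agent.X180.Tow.dn E L) e e := by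
  subst hD
  obtain ⟨c, r, s, w, rfl, hw, K', _, _, _, _, _, A, u, hA, hu, hH⟩ := h
  have hb : big r s w = ∑ j, r j := Finset.sum_congr rfl fun j _ => if_pos (hw j).2.2
  obtain ⟨κ, hκ, hκs⟩ := exists_idx r s w
  have h1 := lc_low (N := d + ∑ j, r j) (X := {p : Place ℂ E | Divisorial (d + ∑ j, r j) p})
    (δ := fun _ => 0)
    (Pool.Agent.X180.Iso.trdeg_rel' hE (Pool.Agent.X180.Tow.trdeg_dn hLE hL)) hA finSigmaFinEquiv hu
    (fun j => (hw j).2.1) (fun j => (hw j).2.2.le) hκ hκs (fun _ _ => le_rfl) hH
  rw [hb] at h1
  exact h1

/-- **Abundance.** Let `m ≥ 2`, `2 * v * m ≤ Q * (m - 1)` and `(v + Q).choose v < q`. For `q` general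
hyperplanes in `P^v` (some polynomial `Ψ` does not vanish at the coefficients) the following holds. Let
`X` be a projective variety with canonical singularities, `b` the coordinates of a rational map
`X ⇢ P^v` whose image is the bottom `W_0`, of dimension `≥ 1`, of a tower `W_l ⇢ ... ⇢ W_0` with
dominant rational maps and a dominant rational map `X ⇢ W_l`, such that the fibres of `W_{i+1}` over
`W_i` are as in `GeneralTypeFibres` and the fibres of `X` over `W_l` are as in `Fibres`. Let the
multiplicities `e i` of the hyperplanes at the prime divisors of `X` be `0` or at least `m`. If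
`r j + 1 ≤ ∑ i, w j i` for all `j` then `κ(X) = ν(X)` is `dim W_l` plus the sum of the `r j` with
`r j + 1 < ∑ i, w j i`, otherwise `κ(X) = ν(X) = -∞`. -/
theorem result {v q m Q : ℕ} (hv : 1 ≤ v) (hm : 2 ≤ m) (hQ : 2 * v * m ≤ Q * (m - 1))
    (hq : (v + Q).choose v < q) :
    ∃ Ψ : MvPolynomial (Fin q × Fin (v + 1)) ℂ, Ψ ≠ 0 ∧
      ∀ ℓ : Fin q → Fin (v + 1) → ℂ, MvPolynomial.eval (fun x => ℓ x.1 x.2) Ψ ≠ 0 →
      ∀ (K : Type) [Field K] [Algebra ℂ K] (N l : ℕ) (E : Fin (l + 1) → IntermediateField ℂ K)
        (D : Fin (l + 1) → ℕ) (e : Fin l → ℕ) (c : ℕ) (r s : Fin c → ℕ) (y : Fin (N + 1) → K),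
      IsCanonicalVariety y (D (Fin.last l) + ∑ j, r j) →
      ∀ b : Fin (v + 1) → K, IsMap ℓ b → E 0 = RF ℂ b → 1 ≤ D 0 → IsTower E D e →
      (∀ P, IsPrimeDivisor y P → ∀ (a : ℤ) (μ : Fin q → ℕ), OrdData P ℓ b a μ →
        ∀ i, μ i = 0 ∨ m ≤ μ i) →
      ∀ w : ∀ j, Fin (s j) → ℚ, Fibres y (E (Fin.last l)) r s w →
        Abundance y (D (Fin.last l) + ∑ j, r j) (D (Fin.last l)) r s w := by
  obtain ⟨Ψ, hΨ, h⟩ := general_fib (n := v) (q := q) hv hm hQ hq
  refine ⟨Ψ, hΨ, ?_⟩
  intro ℓ hℓ K _ _ N l E D e c r s y hy b hb hE0 hD0 hT hmult w hF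
  obtain ⟨hw, K', _, _, _, _, _, B, u, hB, hu, hH, hC⟩ := hF
  obtain ⟨κ, hκ, hκs⟩ := exists_idx r s w
  refine abundance_of hy hw hB hu hC fun hws => ?_
  have h0 : Pool.Agent.X180.Tow.HasForms (D (Fin.last l) + ∑ j, r j) {P | IsPrimeDivisor y P}
      (fun _ => 0) (E (Fin.last l)) (∑ j, r j) (big r s w) :=
    lc_low (N := D (Fin.last l) + ∑ j, r j)
      (Pool.Agent.X180.Iso.trdeg_rel' hy.2.1 (hT.1 _).2) hB finSigmaFinEquiv hu
      (fun j i => ((hw j).2 i).1) hws hκ hκs (fun _ _ => le_rfl) hH
  have h1 := Pool.Agent.X180.Tow.chain (lam := e) hy.2.1 l E (fun i => (hT.2 i).1)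
    (fun i => (hT.1 i.succ).1) D (fun i => (hT.1 i).2) e (fun i => (hT.2 i).2.1) rfl
    (fun i => forms_of (hT.2 i).1 (hT.1 _).2 (hT.1 _).2 (hT.2 i).2.1 (hT.2 i).2.2) h0
  have hsum : D (Fin.last l) = D 0 + ∑ i, e i := by
    have h2 : ∀ (l : ℕ) (D : Fin (l + 1) → ℕ) (e : Fin l → ℕ),
        (∀ i : Fin l, D i.succ = D i.castSucc + e i) → D (Fin.last l) = D 0 + ∑ i, e i := by
      intro l
      induction l with
      | zero =>
        intro D e _
        simp
      | succ l ih =>
        intro D e h
        rw [Fin.sum_univ_castSucc, ← add_assoc, ← Fin.succ_last, h]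
        congr 1
        exact ih (fun i => D i.castSucc) (fun i => e i.castSucc) fun i => h i.castSucc
    exact h2 l D e fun i => (hT.2 i).2.1
  rw [hsum] at h1 ⊢
  rw [hE0] at h1
  obtain ⟨M, hM, θ, hθ, hne⟩ := h1
  have hK : Algebra.trdeg ℂ K = (D 0 + (∑ i, e i + ∑ j, r j) : ℕ) := by
    rw [hy.2.1, hsum, add_assoc]
  have h3 := h ℓ hℓ K (D 0) (∑ i, e i + ∑ j, r j) (∑ i, e i + big r s w) hD0 hK b hb.1 hb.2
    (by rw [← hE0]; exact (hT.1 0).2) {P | IsPrimeDivisor y P} (fun _ => 0) (fun _ => 0)
    (fun _ => 0) (fun _ _ => le_rfl) (fun _ _ => by simp) (fun P hP _ a μ ho i => by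
      rcases hmult P hP a μ ho i with h4 | h4
      · exact Or.inl h4
      · right
        rw [sub_zero, mul_one]
        exact_mod_cast h4) M hM θ (fun j => by
      have h5 := hθ j
      rw [add_assoc] at h5
      exact h5) hne
  rw [← add_assoc, ← add_assoc] at h3
  exact h3

end Pool.Agent.Results.MP_97d78d_ag.IteratedArrangementFibrations
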