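import Pool.Agent.X180.OT.FibMain

/-!
# Abundance for fibre spaces over orbifold towers over products of projective spaces

For `i < m` let `ℓ i k = 0`, `k < q i`, be hyperplanes in projective `n i`-space, an arbitrary
arrangement which is not reducible. Let `X` be a projective variety with canonical singularities (for
instance a smooth projective variety) and

  `X ⇢ W_l ⇢ ... ⇢ W_1 ⇢ W_0 = P^{n_1} × ... × P^{n_m}`, `l ≥ 0`,

dominant rational maps. Suppose:

* (the base) if `v i k` are the multiplicities of the hyperplanes at a prime divisor `P` of `X`, not
  all zero, then `∑ i, v i (k i) / d i > 1` for some choice of hyperplanes `k i`, one for each factor.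
  Here `d i` is `n i + 2`, or only `n i + 1` if the arrangement in the factor does not consist of
  `n i + 2` hyperplanes in general position. The bounds do not depend on the numbers of the
  hyperplanes, and the multiplicities in the different factors are added;
* (the steps of the tower) for each `i < l` the fibres of `W_{i+1}` over `W_i`, *with the
  multiplicities of the fibres of `X` over `W_{i+1}`*, correspond to moving log canonical
  arrangements: there is a variety `X'` with a generically finite map `X' ⇢ X` (ramified anywhere)
  and a rational map over `W_i` of `X'` to a relative product of projective spaces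
  `P^{r_1} × ... × P^{r_c}`, `r_j ≥ 1`, whose fibres are, up to finite maps, the fibres of
  `X' ⇢ W_{i+1}`; in each `P^{r_j}` there are any hyperplanes `A j k = 0`, in any position, which move
  with the point of a variety finite over `W_i`, with weights `w j k ≥ 0`, such that the arrangement
  is log canonical (the sum of the weights of hyperplanes with a common point is at most the
  codimension of their intersection) and `∑ k, w j k ≥ r_j + 1`. If `Q` is a place of the function
  field of `X'` over a prime divisor `P` of `X` which dominates `W_i` but not `W_{i+1}`, with
  ramification index `ε`, and `e j k` are the multiplicities of the hyperplanes at `Q`, not all zero,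
  then `ε ≤ ∑ (mx_j - ∑ w j k e j k)`, where `mx_j` is the greatest sum of `r_j + 1` of the `e j k`
  whose hyperplanes have no common point (`ε ≤ 1`, if all `e j k` are zero). Let `λ_i` be the sum of
  the `r_j` with `∑ k, w j k > r_j + 1`. For instance, if `W_{i+1}` is a projective bundle over `W_i`,
  and the hyperplanes are in general position, this means that the fibres of `X` over the hyperplane
  `A j k = 0` have only components of multiplicity at least `1 / (1 - w j k)`: the steps may have
  negative Kodaira dimension, only the multiple fibres of `X` contribute.

Let `X → W` be the fibre space of `X ⇢ W_l` (`W` is the normalization of `W_l` in the function field of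
`X`) and `F` its geometric generic fibre, a variety of dimension `f + 1 ≥ 1` over the algebraic closure
`Λ` of the function field of `W`. Suppose that `F` has a generically finite rational map to a variety
`F₀` of dimension `f + 1` which is defined over `ℂ` (for instance, the fibres of `X → W` are all
birational to `F₀`, or are covers of `F₀` with a branch divisor which moves). Then

  `κ(X) ≥ dim W_0 + ∑ λ_i + κ(F₀)`, and `ν(X) ≤ dim W + ν(F)`.

So if the steps are of log general type (`λ_i = dim W_{i+1} - dim W_i`) and `κ(F₀) = ν(F)` then
`κ(X) = ν(X) = dim W + κ(F₀)`: abundance for the fibres implies abundance for `X`; if `K_X` is nef then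
it is semiample (Kawamata). Nothing is supposed about the singular fibres of the maps other than the
conditions on the multiplicities at prime divisors of `X`; the prime divisors which are exceptional
over `X` do not matter. If the sums `∑ i, v i (k i) / d i` are only at least `1` then still
`κ(X) ≥ ∑ λ_i + κ(F₀)`.

Notation: `X` is given by the homogeneous coordinates `y` of its generic point, with values in the
function field `K` of `X`; `E i` is the function field of `W_i`; prime divisors are places (`Place`,
`IsPrimeDivisor`), `P.ord` is the order along `P`. The dominant rational map to the product is given by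
homogeneous coordinates `x i j` such that the affine coordinates `x i (j + 1) / x i 0` are
algebraically independent. `KodTr k K n h`: the Kodaira dimension of a smooth projective variety with
function field `K` is at least `h`, that is, there are `h + 1` pluricanonical forms of which the `h`
ratios are algebraically independent; `NumLe k K n (fun _ => False) h`: the numerical dimension is at
most `h`, that is `h⁰ (m K + A) ≤ C m ^ h` for each divisor `A` (`Pool/Agent/W619`). Definitions:
`Pool/Agent/X180/TP/Defs`, `Pool/Agent/X180/OT/Defs`, `Pool/Agent/X180/OT/FibDefs`.

Proof: the norms of the forms which are defined by the pluricanonical forms of `F₀` are forms along the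
fibres of `X` which take regular values on regular vector fields tangent to the fibres. They are
multiplied by the forms of the steps of the tower: norms of products of determinants of logarithmic
derivatives of the linear forms, of degree `dim W_{i+1} - dim W_i`, whose coefficients are algebraic
over the function field of `W_{i+1}`, and which are estimated at the prime divisors of `X`
(`Pool.Agent.X180.Orb`); and by the forms of the base, with weights on the bases of the matroids of the
arrangements (`Pool.Agent.X180.Multi`). The upper bound is the numerical easy addition
(`Pool.Agent.Y174.easy_add`).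
-/

set_option autoImplicit false

open FF Module Pool.Agent.W602.Cov Pool.Agent.Y172 Pool.Agent.X180.OT
open Pool.Agent.X180.TP (Bound affine BaseField Multiplicities IsCanonicalVariety)

namespace Pool.Agent.Results.MP_97d78d_ag.OrbifoldFibreSpaces

/-- **Abundance for fibre spaces over orbifold towers.** Let `ℓ i` be arbitrary arrangements of
hyperplanes, which are not reducible, in projective spaces of dimensions `n i ≥ 1`, `d i` the bounds.
Let `X` be a projective variety with canonical singularities, with function field `K`, and
`X ⇢ W_l ⇢ ... ⇢ W_0` an orbifold tower over the product `W_0` of the projective spaces, of which the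
steps have dimensions `e i` and log Kodaira dimensions `lam i`; let the relative dimension of
`X ⇢ W_l` be `f + 1`. Suppose that at each prime divisor of `X` over one of the hyperplanes
`∑ i, v i (k i) / d i ≥ 1` for the multiplicities `v` and some `k`. If the geometric generic fibre `F`
of the fibre space `X → W` of `X ⇢ W_l` has a generically finite dominant rational map to a variety
`F₀` over `ℂ` of dimension `f + 1`, then `κ(X) ≥ ∑ i, lam i + h` if `κ(F₀) ≥ h`, and
`ν(X) ≤ dim W + h` if `ν(F) ≤ h`. If the multiplicities satisfy `∑ i, v i (k i) / d i > 1` then
`κ(X) ≥ dim W_0 + ∑ i, lam i + h` if `κ(F₀) ≥ h`; so if `lam i = e i` for all `i`, and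
`κ(F₀) = ν(F) = h` then `κ(X) = ν(X) = dim W + h`. -/
theorem result {m : ℕ} (n q : Fin m → ℕ) (hn : ∀ i, 1 ≤ n i)
    (ℓ : ∀ i, Fin (q i) → Form (n i)) (hℓ : ∀ i k, ℓ i k ≠ 0) (hr : ∀ i, ¬ Reducible (ℓ i))
    (d : Fin m → ℕ) (hd : ∀ i, Bound (ℓ i) (d i)) (K : Type) [Field K] [Algebra ℂ K]
    [Algebra.EssFiniteType ℂ K] (N l f : ℕ)
    (E : Fin (l + 1) → IntermediateField ℂ K) (D : Fin (l + 1) → ℕ) (e lam : Fin l → ℕ)
    (y : Fin (N + 1) → K) (hy : IsCanonicalVariety y (D (Fin.last l) + (f + 1)))
    (x : ∀ i, Fin (n i + 1) → K)
    (hx0 : ∀ i, x i 0 ≠ 0) (hind : AlgebraicIndependent ℂ (affine x)) (hE0 : E 0 = BaseField x)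
    (hT : IsOrbifoldTower {P | IsPrimeDivisor y P} (fun _ => 0) E D e lam)
    (hm : Multiplicities y ℓ x d fun z => 1 ≤ z) :
    FibreAbundance (E (Fin.last l)) (D (Fin.last l)) (∑ i, lam i) f ∧
      (Multiplicities y ℓ x d (fun z => 1 < z) →
        FibreAbundance (E (Fin.last l)) (D (Fin.last l)) (D 0 + ∑ i, lam i) f) :=
  multi_main hn hℓ hr hd hy hx0 hind hE0 hT hm

end Pool.Agent.Results.MP_97d78d_ag.OrbifoldFibreSpaces
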